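import Pool.Agent.Helper1.T5b.ZDefs
import Pool.Agent.Helper30.T5b.Index

/-!
# T5b (MP_12a1af), lines 6 and 7, Z1: the number of labels
-/

set_option autoImplicit false

namespace Pool.Agent.Helper39.T5b

open Finset
open Pool.Agent.Helper5.ET hiding Key Mk AA Rp keysOf el ext
open Pool.Agent.Helper27.T4
open Pool.Agent.Helper27.T5b hiding FF_pos dvd_cs cs_lt QQ_eq_NN c0_lt Jn_pos
open Pool.Agent.Helper37.T5b
open Pool.Agent.Helper30.T5b hiding pz_prime pz_inj NL_pos
open Pool.Agent.Helper22.HW Pool.Agent.Helper22.SL Pool.Agent.Helper57.T5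
open Pool.Agent.Helper84.T5b Pool.Agent.Helper44.T5 Pool.Agent.Helper44.T5b
open Pool.Agent.Helper1.T5b

variable {m k : ℕ}

/-- near late states are close -/
theorem close_of_near (hm : 0 < m) {l' l : ℕ} (hl : l' ≤ l) (h0 : bb 0 ≤ mL m k l')
    (hk : kt m k ≤ era (mL m k l')) (hN : Near m k l' l) :
    60 * (mL m k l - mL m k l') ≤ mL m k l := by
  have h1 : 4 * (mL m k l - mL m k l') < ZZ m k (era (mL m k l')) := hN
  have h2 := (ZZ_len (k := k) hm hk).1
  have h3 := (era_spec _ h0).1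
  have h4 : mL m k l' ≤ mL m k l := l1_mono _ hl
  omega

/-- **Z1** -/
theorem labS {m k : ℕ} (hm : 2 ≤ m) : LabS m k := by
  classical
  have hm0 : 0 < m := by omega
  obtain ⟨l0, h0⟩ := Pool.Agent.Helper30.T5b.exists_late (k := k) hm0 0 0
  refine ⟨l0, fun l' l hl' h w n => ?_⟩
  obtain ⟨_, a2, a3, _, _⟩ := h0 l' hl'
  have hs : sL m k l' = sL m k l := h.same
  have hc := close_of_near hm0 h.le a2 a3 h.near
  constructor
  · refine le_trans (card_le_card ?_) (lab hm0 a2 h.le hs hc w n)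
    intro q hq
    unfold LbJ at hq
    rw [mem_filter] at hq ⊢
    refine ⟨hq.1, ?_⟩
    exact (Nat.modEq_iff_dvd' hq.2.1).2 hq.2.2
  · intro r _ _ c
    rcases ((LbJ m k l l' w n).filter (fun q => (n - sJ m k l l' w q) % FF m k l' r =
        c % FF m k l' r)).eq_empty_or_nonempty with hE | ⟨q0, hq0⟩
    · rw [hE, card_empty]
      exact Nat.zero_le _
    have hz : ef m k l' r ≤ ef m k l' 0 := ez_le hm0 (by omega) l'
    have hF : FF m k l' r = Jn m k (sL m k l) (ef m k l' r) := by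
      unfold FF
      rw [hs]
    refine le_trans (card_le_card ?_) (lab_z hm0 a2 h.le hs hc hz w (sJ m k l l' w q0))
    intro q hq
    unfold LbJ at hq hq0
    rw [mem_filter, mem_filter] at hq hq0
    rw [mem_filter]
    refine ⟨hq.1.1, ?_⟩
    have e1 : n - sJ m k l l' w q ≡ n - sJ m k l l' w q0 [MOD FF m k l' r] :=
      hq.2.trans hq0.2.symm
    have e2 : sJ m k l l' w q + (n - sJ m k l l' w q) ≡
        sJ m k l l' w q0 + (n - sJ m k l l' w q0) [MOD FF m k l' r] := by
      rw [Nat.add_sub_cancel' hq.1.2.1, Nat.add_sub_cancel' hq0.1.2.1]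
    have e3 := Nat.ModEq.add_right_cancel e1 e2
    rw [hF] at e3
    exact e3

end Pool.Agent.Helper39.T5b
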