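import Pool.Agent.Helper1.T5b.ZDefs2
import Pool.Agent.Helper39.T5b.InRep

/-!
# T5b (MP_12a1af), lines 6 and 7: A0 (candidates of the keyed level), A1 (the keyed level is in
order)
-/

set_option autoImplicit false

namespace Pool.Agent.Helper39.T5b

open Finset
open Pool.Agent.Helper5.ET hiding Key Mk AA Rp keysOf el ext
open Pool.Agent.Helper27.T4
open Pool.Agent.Helper27.T5b hiding FF_pos dvd_cs cs_lt QQ_eq_NN c0_lt Jn_pos
open Pool.Agent.Helper37.T5b
open Pool.Agent.Helper30.T5b hiding pz_prime pz_inj NL_pos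
open Pool.Agent.Helper22.HW Pool.Agent.Helper22.SL Pool.Agent.Helper57.T5
open Pool.Agent.Helper39.T5 Pool.Agent.Helper50.T5
open Pool.Agent.Helper84.T5b Pool.Agent.Helper44.T5 Pool.Agent.Helper44.T5b
open Pool.Agent.Helper22.NEARb Pool.Agent.Helper75.T5 Pool.Agent.Helper1.T5
open Pool.Agent.Helper36.T5 Pool.Agent.Helper1.T5b

variable {m k : ℕ}

/-! ## A0 -/

theorem card_T1_sq_le (p a : ℕ) : (T1 p a).card * (T1 p a).card ≤ p ^ a := by
  set s := Nat.sqrt (p ^ a) with hs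
  have h1 : T1 p a ⊆ Finset.Icc 1 s := by
    intro y hy
    have h2 := mem_T1.1 hy
    rw [Finset.mem_Icc]
    refine ⟨h2.1.one_lt.le, ?_⟩
    rw [hs]
    exact Nat.le_sqrt'.2 h2.2.2.le
  have h2 : (T1 p a).card ≤ s := by
    have := card_le_card h1
    rwa [Nat.card_Icc, Nat.add_sub_cancel] at this
  exact (Nat.mul_le_mul h2 h2).trans (Nat.sqrt_le _)

theorem card_Ys_sq_le (m k l : ℕ) : (Ys m k l 0).card * (Ys m k l 0).card ≤
    NN (pz k (sL m k l)) (zf m k (sL m k l)) := by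
  have h1 : (Ys m k l 0).card = ∏ i, (T1 (pz k (sL m k l) i) (zf m k (sL m k l) i)).card := by
    show (Fintype.piFinset _).card = _
    rw [Fintype.card_piFinset]
    rfl
  rw [h1, ← Finset.prod_mul_distrib]
  unfold NN
  exact Finset.prod_le_prod' (fun i _ => card_T1_sq_le _ _)

theorem cand_num {J Yc F F' q0 q1 q2 : ℕ} {A ρ : ℝ} (hY : Yc ≤ q0 * (q1 * q2)) (hF : 0 < F)
    (h0 : 0 < q0) (h1 : 0 < q1) (h2 : 0 < q2) (hA : 1 ≤ A)
    (hJ : (J : ℝ) * A * ((F' : ℝ) / F + 1 / (q2 : ℝ)) ≤ ρ) :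
    (((J * Yc) * (F' * (q0 * (q1 * q2)) / (F * q0) + 1) : ℕ) : ℝ) ≤
      ρ * (((q0 * (q1 * q2) : ℕ) : ℝ) * ((q1 * q2 : ℕ) : ℝ)) := by
  have hJ0 : (0 : ℝ) ≤ J := Nat.cast_nonneg _
  have k0 : (0 : ℝ) < q0 := by exact_mod_cast h0
  have k1 : (1 : ℝ) ≤ q1 := by exact_mod_cast h1
  have k2 : (0 : ℝ) < q2 := by exact_mod_cast h2
  have kF : (0 : ℝ) < F := by exact_mod_cast hF
  have kF' : (0 : ℝ) ≤ F' := Nat.cast_nonneg _
  have kY : (Yc : ℝ) ≤ q0 * (q1 * q2) := by exact_mod_cast hY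
  have kY0 : (0 : ℝ) ≤ Yc := Nat.cast_nonneg _
  have hx0 : (0 : ℝ) ≤ (F' : ℝ) / F + 1 / (q2 : ℝ) := by positivity
  have hJ' : (J : ℝ) * ((F' : ℝ) / F + 1 / (q2 : ℝ)) ≤ ρ := by
    refine le_trans ?_ hJ
    have := mul_le_mul_of_nonneg_right hA (mul_nonneg hJ0 hx0)
    nlinarith
  have hdiv : ((F' * (q0 * (q1 * q2)) / (F * q0) : ℕ) : ℝ) ≤ (F' : ℝ) / F * (q1 * q2) := by
    refine Nat.cast_div_le.trans (le_of_eq ?_)
    push_cast
    field_simp
  have e1 : (((J * Yc) * (F' * (q0 * (q1 * q2)) / (F * q0) + 1) : ℕ) : ℝ) =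
      (J * Yc : ℝ) * (((F' * (q0 * (q1 * q2)) / (F * q0) : ℕ) : ℝ) + 1) := by
    push_cast
    ring
  have e2 : (J * Yc : ℝ) * (((F' * (q0 * (q1 * q2)) / (F * q0) : ℕ) : ℝ) + 1) ≤
      (J * (q0 * (q1 * q2))) * ((F' : ℝ) / F * (q1 * q2) + q1) := by
    refine mul_le_mul (mul_le_mul_of_nonneg_left kY hJ0) (add_le_add hdiv k1) (by positivity) ?_
    positivity
  have e3 : (J * (q0 * (q1 * q2))) * ((F' : ℝ) / F * (q1 * q2) + q1) =
      ((J : ℝ) * ((F' : ℝ) / F + 1 / (q2 : ℝ))) * ((q0 * (q1 * q2)) * (q1 * q2)) := by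
    field_simp
  have e4 : ((J : ℝ) * ((F' : ℝ) / F + 1 / (q2 : ℝ))) * ((q0 * (q1 * q2)) * (q1 * q2)) ≤
      ρ * ((q0 * (q1 * q2)) * (q1 * q2)) := mul_le_mul_of_nonneg_right hJ' (by positivity)
  rw [e1]
  refine e2.trans ?_
  rw [e3]
  refine e4.trans (le_of_eq ?_)
  push_cast
  ring

theorem A_one_ge {κ : Type*} (P : Pr κ) (h0 : 0 < P.p 0 0) (h1 : 0 < P.p 0 1) : 1 ≤ P.A 1 := by
  unfold Pr.A
  rw [Finset.prod_range_one]
  have k0 : (1 : ℝ) ≤ (P.p 0 0 : ℝ) := by exact_mod_cast h0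
  have k1 : (1 : ℝ) ≤ (P.p 0 1 : ℝ) := by exact_mod_cast h1
  nlinarith

/-- **A0** -/
theorem candS (m k : ℕ) : CandS m k := by
  refine ⟨0, ?_⟩
  intro l' l _ _ J h ρ hρ hJ
  have hY := card_Ys_sq_le m k l
  have hN : NN (pz k (sL m k l)) (zf m k (sL m k l)) =
      pz k (sL m k l) 0 ^ zf m k (sL m k l) 0 * (pz k (sL m k l) 1 ^ zf m k (sL m k l) 1 *
        pz k (sL m k l) 2 ^ zf m k (sL m k l) 2) := by
    unfold NN
    rw [Fin.prod_univ_three, mul_assoc]
  have hM : MM (pz k (sL m k l)) (zf m k (sL m k l)) (univ.erase 0) =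
      pz k (sL m k l) 1 ^ zf m k (sL m k l) 1 * pz k (sL m k l) 2 ^ zf m k (sL m k l) 2 := by
    unfold MM
    have h1 : (univ.erase (0 : Fin 3)) = {1, 2} := by decide
    rw [h1, Finset.prod_insert (by decide), Finset.prod_singleton]
  have hpos : ∀ i, 0 < pz k (sL m k l) i ^ zf m k (sL m k l) i :=
    fun i => pow_pos (pz_prime k _ i).pos _
  rw [hN] at hY
  rw [hN, hM]
  exact cand_num hY (FF_pos m k l 1) (hpos 0) (hpos 1) (hpos 2)
    (A_one_ge (PZo m k l' l 0 (1 + h) 0 0) (pz_prime k _ 0).pos (pz_prime k _ 1).pos) hJ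

/-! ## A1 -/

theorem mem_LbT {l l' : ℕ} {w : Key → ℕ} {n : ℕ} {g : LT} : g ∈ LbT m k l l' w n ↔
    ∃ q ∈ LbJ m k l l' w n, g = (okey m k l 0 q.1, (okey m k l' 0 q.2,
      n - sJ m k l l' w q)) := by
  unfold LbT
  rw [mem_image]
  exact ⟨fun ⟨q, hq, he⟩ => ⟨q, hq, he.symm⟩, fun ⟨q, hq, he⟩ => ⟨q, hq, he.symm⟩⟩

theorem sJ_lt {l l' : ℕ} (w : Key → ℕ) (q : (JF → ℕ) × (JF → ℕ)) :
    sJ m k l l' w q < FF m k l 0 + FF m k l' 0 := by
  unfold sJ
  have h1 := c0_lt m k l w q.1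
  have h2 := c0_lt m k l' w q.2
  omega

theorem FF_dvd_of_le (hm : 0 < m) {l l' i i' : ℕ} (hs : sL m k l' = sL m k l) (hl : l' ≤ l)
    (hi : i ≤ i') : FF m k l' i' ∣ FF m k l i := by
  have h1 : ef m k l' i' ≤ ef m k l i := by
    unfold ef
    rw [hs]
    exact (ez_mono m _ hl).trans (ez_le hm (by omega) l)
  unfold FF
  rw [hs]
  exact Jn_dvd m k _ h1

/-- **A1** -/
theorem kokS (hm : 0 < m) (h0 : HzS m k) (h1 : LabS m k) (h2 : KeyS m k) (h3 : OkS m k) :
    KokS m k := by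
  classical
  obtain ⟨K0, h0⟩ := h0
  obtain ⟨K1, h1⟩ := h1
  obtain ⟨K2, h2⟩ := h2
  obtain ⟨K3, h3⟩ := h3
  refine ⟨max (max K0 K1) (max K2 K3), ?_⟩
  intro l' l hl' hD K hK hK' w n h hh
  simp only [max_le_iff] at hl'
  obtain ⟨⟨g0, g1⟩, g2, g3⟩ := hl'
  obtain ⟨a1, a2, a3, a4, a5, a6, a7⟩ := h0 l' l g0 hD
  obtain ⟨b1, b2⟩ := h1 l' l g1 hD w n
  obtain ⟨c1, c2, c3⟩ := h2 l' l g2 hD
  obtain ⟨c4, c5, c6⟩ := c3 K hK hK'
  obtain ⟨d1, d2, d3, d4⟩ := h3 l' l g3 hD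
  have hs : sL m k l' = sL m k l := hD.same
  have hne : l ≠ l' := by omega
  have hLb : ∀ g ∈ LbT m k l l' w n, ∃ q ∈ LbJ m k l l' w n,
      g = (okey m k l 0 q.1, (okey m k l' 0 q.2, n - sJ m k l l' w q)) := fun g hg =>
    mem_LbT.1 hg
  have hX : ∀ q ∈ LbJ m k l l' w n, q.1 ∈ XJ m k l ∧ q.2 ∈ XJ m k l' ∧
      sJ m k l l' w q ≤ n := by
    intro q hq
    unfold LbJ at hq
    rw [mem_filter, mem_product] at hq
    exact ⟨hq.1.1, hq.1.2, hq.2.1⟩
  have hcard : (LbT m k l l' w n).card ≤ CJ k (sL m k l) * IJ m k l l' := by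
    unfold LbT
    exact card_image_le.trans b1
  have hL0 : (PZo m k l' l 1 h 0 0).L0 = QQ m k (sL m k l) 0 := by
    show LL (QQ m k (sL m k l)) 1 = _
    unfold LL
    rw [Finset.prod_range_one]
  have hQQ : QQ m k (sL m k l) 0 = NN (pz k (sL m k l)) (zf m k (sL m k l)) := rfl
  have hFF1 : FF m k l' 1 ∣ FF m k l 1 := FF_dvd_of_le hm hs hD.le le_rfl
  have hFF0 : FF m k l' 0 ∣ FF m k l 0 := FF_dvd_of_le hm hs hD.le le_rfl
  have hF' : ∀ r, 1 ≤ r → (PZo m k l' l 1 h 0 0).F' r = FF m k l' (1 + r) := by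
    intro r hr
    show (if r = 0 then _ else _) = _
    rw [if_neg (by omega)]
  refine
    { pr := pz_prime k _
      odd := pz_ne_two k _
      inj := pz_inj k _
      ok := d2
      ok' := d3
      dj := ?_
      ee := ?_
      rank := ?_
      adm := Ys_adm m k l 0
      adm' := Ys_adm m k l 0
      keys := ?_
      keys' := ?_
      pok := d1 1 h le_rfl hh 0 0
      pkeys := ?_
      sep := ?_
      Q := ?_
      win := ?_
      F := ?_
      Ir0 := ?_
      Ir := ?_ }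
  · intro o i y o' i' y' he
    have e1 : Key.S l 0 i o (mask (univ.filter (fun g => g < i)) y) =
      Key.S l' 0 i' o' (mask (univ.filter (fun g => g < i')) y') := he
    simp only [Key.S.injEq] at e1
    exact hne e1.1
  · have e1 : (OSl m k l' l).e = zf m k (sL m k l) := rfl
    have e2 : (OSu m k l).e = zf m k (sL m k l) := rfl
    rw [e1, e2]
  · intro i hi
    show (0 : Fin 3).val < i.val
    have : i.val ≠ 0 := fun h => hi (Fin.ext h)
    show 0 < i.val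
    omega
  · intro g hg y hy i
    obtain ⟨q, hq, rfl⟩ := hLb g hg
    exact c4 q.1 (hX q hq).1 y hy i (1 + h) (by omega)
  · intro g hg y hy i
    obtain ⟨q, hq, rfl⟩ := hLb g hg
    exact c5 q.2 (hX q hq).2.1 y hy i (1 + h) (by omega)
  · exact c6 h (by omega) (by omega)
  · intro r i y o j z
    refine ⟨?_, ?_, ?_, ?_⟩
    · intro he
      have e1 : Key.S l (1 + r) i (if 1 + r = 0 then (0 : JF → ℕ) else 0)
          (mask (univ.filter (fun g => g < i)) y) =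
        Key.S l 0 j o (mask (univ.filter (fun g => g < j)) z) := he
      simp only [Key.S.injEq] at e1
      omega
    · intro he
      have e1 : Key.S l (1 + r) i (if 1 + r = 0 then (0 : JF → ℕ) else 0)
          (mask (univ.filter (fun g => g < i)) y) =
        Key.S l' 0 j o (mask (univ.filter (fun g => g < j)) z) := he
      simp only [Key.S.injEq] at e1
      omega
    · intro he
      have e1 : Key.S l' (1 + r) i (if 1 + r = 0 then (0 : JF → ℕ) else 0)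
          (mask (univ.filter (fun g => g < i)) y) =
        Key.S l 0 j o (mask (univ.filter (fun g => g < j)) z) := he
      simp only [Key.S.injEq] at e1
      omega
    · intro he
      have e1 : Key.S l' (1 + r) i (if 1 + r = 0 then (0 : JF → ℕ) else 0)
          (mask (univ.filter (fun g => g < i)) y) =
        Key.S l' 0 j o (mask (univ.filter (fun g => g < j)) z) := he
      simp only [Key.S.injEq] at e1
      omega
  · rw [hL0, hQQ]
    exact dvd_mul_left _ _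
  · intro g hg g' hg'
    obtain ⟨q, hq, rfl⟩ := hLb g hg
    obtain ⟨q', hq', rfl⟩ := hLb g' hg'
    have e1 := (hX q hq).2.2
    have e2 := (hX q' hq').2.2
    have e3 := sJ_lt (m := m) (k := k) (l := l) (l' := l') w q'
    have e4 : FF m k l' 0 ≤ FF m k l 0 := Nat.le_of_dvd (FF_pos _ _ _ _) hFF0
    have e5 : FF m k l' 1 ≤ FF m k l 1 := Nat.le_of_dvd (FF_pos _ _ _ _) hFF1
    have e6 : FF m k l' 1 * NN (pz k (sL m k l)) (zf m k (sL m k l)) ≤
        FF m k l 1 * NN (pz k (sL m k l)) (zf m k (sL m k l)) := Nat.mul_le_mul_right _ e5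
    have e7 : (PZo m k l' l 1 h 0 0).F 0 = 4 * FF m k l 1 := rfl
    rw [hQQ] at d4 hL0
    rw [hL0, e7]
    show n - sJ m k l l' w q + (FF m k l 1 * NN (pz k (sL m k l)) (zf m k (sL m k l)) +
      FF m k l' 1 * NN (pz k (sL m k l)) (zf m k (sL m k l))) ≤ n - sJ m k l l' w q' +
        4 * FF m k l 1 * NN (pz k (sL m k l)) (zf m k (sL m k l))
    have e8 : 4 * FF m k l 1 * NN (pz k (sL m k l)) (zf m k (sL m k l)) =
      4 * (FF m k l 1 * NN (pz k (sL m k l)) (zf m k (sL m k l))) := by ring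
    rw [e8]
    omega
  · intro r hr1 hr
    rw [hF' r hr1]
    refine ⟨?_, ?_⟩
    · show FF m k l' (1 + r) ∣ FF m k l 1
      exact FF_dvd_of_le hm hs hD.le (by omega)
    · show FF m k l' (1 + r) ∣ FF m k l' 1
      exact FF_dvd_of_le hm rfl le_rfl (by omega)
  · have e1 : IrT m k l' l 1 0 = CS k (sL m k l) 0 * (CJ k (sL m k l) * IJ m k l l') := by
      unfold IrT
      rw [if_pos rfl]
    rw [e1]
    exact Nat.mul_le_mul_left _ hcard
  · intro r hr1 hr c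
    have e1 : IrT m k l' l 1 r = CS k (sL m k l) 0 * (CJ k (sL m k l) *
        LJ m k l l' (ef m k l' (1 + r))) := by
      unfold IrT
      rw [if_neg (by omega)]
    have hr' : r ≤ h := hr
    rw [e1, hF' r hr1]
    refine Nat.mul_le_mul_left _ (le_trans ?_ (b2 (1 + r) (by omega) (by omega) c))
    refine le_trans (card_le_card (t := ((LbJ m k l l' w n).filter (fun q =>
      (n - sJ m k l l' w q) % FF m k l' (1 + r) = c % FF m k l' (1 + r))).image (fun q =>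
        (okey m k l 0 q.1, (okey m k l' 0 q.2, n - sJ m k l l' w q)))) ?_) card_image_le
    intro g hg
    rw [mem_filter] at hg
    obtain ⟨q, hq, he⟩ := hLb g hg.1
    rw [mem_image]
    refine ⟨q, mem_filter.2 ⟨hq, ?_⟩, he.symm⟩
    have h4 := hg.2
    rw [he] at h4
    exact h4

end Pool.Agent.Helper39.T5b
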