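import Pool.Agent.Helper39.T5b.InRepS

/-!
# T5b (MP_12a1af): towers across SPLIT for a block with a changed first front

`PF m k t l' l o F0` is `Helper22.NEARs.PN m k t l' l o` with `F 0 = F' 0 = F0`.
-/

set_option autoImplicit false

namespace Pool.Agent.Helper39.T5b

open Finset
open Pool.Agent.Helper5.ET hiding Key Mk AA Rp keysOf el ext
open Pool.Agent.Helper27.T4
open Pool.Agent.Helper27.T5b hiding FF_pos dvd_cs cs_lt QQ_eq_NN c0_lt Jn_pos
open Pool.Agent.Helper37.T5b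
open Pool.Agent.Helper30.T5b hiding pz_prime pz_inj
open Pool.Agent.Helper22.HW Pool.Agent.Helper22.SL Pool.Agent.Helper57.T5
open Pool.Agent.Helper39.T5 Pool.Agent.Helper50.T5 Pool.Agent.Helper42.T5.Pr
open Pool.Agent.Helper84.T5b Pool.Agent.Helper44.T5 Pool.Agent.Helper44.T5b Pool.Agent.Helper39.SL
open Pool.Agent.Helper22.NEARs
open Pool.Agent.Helper45.T5b (OK)
open Pool.Agent.Helper48.T5b (SplitP)

variable {m k l l' t : ℕ} {o : JF → ℕ} {w : Key → ℕ}

/-! ## any block -/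

/-- upper state, any block with the codes of the static levels -/
theorem rep_gen (hm : 0 < m) {P : Pr Key} {c : ℕ → (Fin 3 → ℕ) → ℕ}
    (hY : ∀ r < P.h, P.Y r = Ys m k l (t + r))
    (hc : ∀ r < P.h, ∀ y, c r y = cs m k l (t + r) w 0 y)
    (hL : P.L P.h = LL (QQ m k (sL m k l)) (t + P.h)) (hth : t + P.h ≤ rL m k l) :
    Rep P c (Jn m k (sL m k l) l) (Bw m k l (t + P.h) w) (Zw m k l t w) := by
  intro u hu
  obtain ⟨y, hy, u', hu', he⟩ := Zw_split P.h hth hu
  obtain ⟨b, hb', hub⟩ := Zw_eq_Bw hm hth hu'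
  refine ⟨y, fun r hr => ?_, b, hb', ?_⟩
  · rw [hY r hr]
    exact hy r hr
  · have h2 : ∑ r ∈ range P.h, cs m k l (t + r) w 0 (y r) = ∑ r ∈ range P.h, c r (y r) :=
      Finset.sum_congr rfl (fun r hr => (hc r (mem_range.1 hr) (y r)).symm)
    rw [he, hub, hL, h2]

/-- lower state across SPLIT, any block with the codes of the static levels -/
theorem rep_gen' (hm : 0 < m) (h : SplitP m k (sL m k l') l' l) (ht : 1 ≤ t) {P : Pr Key}
    {c : ℕ → (Fin 3 → ℕ) → ℕ} (hh : 1 ≤ P.h) (hY : ∀ r < P.h, P.Y r = Ys m k l (t + r))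
    (hc : ∀ r < P.h, ∀ y, c r y = cs m k l' (t - 1 + r) w (if t - 1 + r = 0 then o else 0) y)
    (hL : P.L P.h = LL (QQ m k (sL m k l)) (t + P.h)) (hth : t + P.h ≤ rL m k l' + 1) :
    Rep P c (Jn m k (sL m k l) l') (Bw m k l' (t + P.h - 1) w) (ZwO m k l' (t - 1) o w) := by
  intro u hu
  obtain ⟨y, hy, u', hu', he⟩ := ZwO_split P.h hh (by omega) hu
  have e1 : t - 1 + P.h = t + P.h - 1 := by omega
  rw [e1] at hu'
  obtain ⟨b, hb', hub⟩ := Zw_eq_Bw hm (by omega) hu'
  refine ⟨y, fun r hr => ?_, b, hb', ?_⟩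
  · rw [hY r hr]
    have h2 := hy r hr
    show y r ∈ TT (pz k (sL m k l - (t + r))) (zf m k (sL m k l - (t + r)))
    rw [idx_S h ht]
    exact h2
  · have h2 : ∑ r ∈ range P.h, cs m k l' (t - 1 + r) w (if t - 1 + r = 0 then o else 0) (y r) =
        ∑ r ∈ range P.h, c r (y r) :=
      Finset.sum_congr rfl (fun r hr => (hc r (mem_range.1 hr) (y r)).symm)
    rw [he, hub, unit_win hm h (show 1 ≤ t + P.h by omega), hL, h2]

/-! ## the block with a changed first front -/

/-- the block of `PN m k t l' l o` with `F 0 = F' 0 = F0` and `h` levels -/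
noncomputable def PF (m k t l' l : ℕ) (o : JF → ℕ) (h F0 : ℕ) : Pr Key where
  h := h
  p := (PN m k t l' l o).p
  z := (PN m k t l' l o).z
  M := (PN m k t l' l o).M
  M' := (PN m k t l' l o).M'
  L0 := (PN m k t l' l o).L0
  F := fun r => if r = 0 then F0 else (PN m k t l' l o).F r
  F' := fun r => if r = 0 then F0 else (PN m k t l' l o).F' r
  Y := (PN m k t l' l o).Y
  key := (PN m k t l' l o).key
  key' := (PN m k t l' l o).key'

variable {h F0 : ℕ}

theorem PF_L (r : ℕ) : (PF m k t l' l o h F0).L r = LL (QQ m k (sL m k l)) (t + r) := by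
  have h1 : (PF m k t l' l o h F0).L r = (PN m k t l' l o).L r := rfl
  rw [h1, PNs_L]

theorem PF_S (r : ℕ) : (PF m k t l' l o h F0).S r = (PN m k t l' l o).S r := rfl

theorem PF_S' (r : ℕ) : (PF m k t l' l o h F0).S' r = (PN m k t l' l o).S' r := rfl

/-- a static side, all data as parameters -/
theorem side_okJ {m k l' u j F : ℕ} {o : JF → ℕ} (hu : u ≤ sL m k l') (hk : u ≤ k + 1)
    (hj : j = sL m k l' - u) (hF : F = FF m k l' (u + 1) * LL (QQ m k (sL m k l')) u) :
    (⟨F, zf m k j, zf m k j, (Ss m k l' u o).key⟩ : Side (pz k j) Key).Ok rk3 (Mk m k) := by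
  subst hj
  subst hF
  exact Ss_ok hu hk o

theorem PF_sok {r : ℕ} (ht : t + r ≤ rL m k l) (hm : 0 < m) :
    ((PF m k t l' l o h F0).S r).Ok rk3 (Mk m k) := by
  have hrL := rL_le hm k l
  have e : (PN m k t l' l o).S r = Ss m k l (t + r) 0 := PNs_S r
  have h1 : (Ss m k l (t + r) 0).Ok rk3 (Mk m k) := Ss_ok (by omega) (by omega) 0
  rw [PF_S, e]
  exact h1

theorem PF_sok' (hm : 0 < m) (hS : SplitP m k (sL m k l') l' l) (ht1 : 1 ≤ t) {r : ℕ}
    (ht : t + r ≤ rL m k l' + 1) : ((PF m k t l' l o h F0).S' r).Ok rk3 (Mk m k) := by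
  have hrL := rL_le hm k l'
  rw [PF_S']
  exact side_okJ (m := m) (k := k) (l' := l') (u := t - 1 + r)
    (j := sL m k l - (t + r)) (F := (PN m k t l' l o).F' (r + 1) * (PN m k t l' l o).L r)
    (o := if t - 1 + r = 0 then o else 0) (by omega) (by omega) (idx_S hS ht1 r)
    (unit_S hm hS ht1 r)

/-- the codes of the levels are the static codes of the upper state -/
theorem cU_PF (hP : (PF m k t l' l o h F0).Ok (Mk m k)) (w : Key → ℕ) (r : ℕ)
    (y : Fin 3 → ℕ) : cU hP w r y = cs m k l (t + r) w 0 y := by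
  have h1 : ∀ S : Side (pz k (sL m k l - (t + r))) Key, (PN m k t l' l o).S r = S →
      cU hP w r y = S.cd (pz_prime k _) (pz_inj k _) w y := by
    rintro S rfl
    rfl
  exact h1 _ (PNs_S r)

/-- the codes of the levels of the lower state -/
theorem cU'_PF (hm : 0 < m) (hS : SplitP m k (sL m k l') l' l) (ht : 1 ≤ t)
    (hP : (PF m k t l' l o h F0).Ok (Mk m k)) (w : Key → ℕ) (r : ℕ) (y : Fin 3 → ℕ) :
    cU' hP w r y = cs m k l' (t - 1 + r) w (if t - 1 + r = 0 then o else 0) y := by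
  have h1 : cU' hP w r y = csJ k (sL m k l - (t + r))
      ((PN m k t l' l o).F' (r + 1) * (PN m k t l' l o).L r) (zf m k (sL m k l - (t + r)))
      (Ss m k l' (t - 1 + r) (if t - 1 + r = 0 then o else 0)).key w y := rfl
  rw [h1, unit_S hm hS ht, idx_S hS ht, cs_eq_csJ]

/-- **upper state** -/
theorem rep_PF (hP : (PF m k t l' l o h F0).Ok (Mk m k)) (hm : 0 < m)
    (hth : t + h ≤ rL m k l) (w : Key → ℕ) :
    Rep (PF m k t l' l o h F0) (cU hP w) (Jn m k (sL m k l) l) (Bw m k l (t + h) w)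
      (Zw m k l t w) :=
  rep_gen (P := PF m k t l' l o h F0) hm (fun _ _ => rfl) (fun r _ y => cU_PF hP w r y)
    (PF_L h) hth

/-- **lower state** -/
theorem rep_PF' (hS : SplitP m k (sL m k l') l' l) (ht : 1 ≤ t)
    (hP : (PF m k t l' l o h F0).Ok (Mk m k)) (hm : 0 < m) (hh : 1 ≤ h)
    (hth : t + h ≤ rL m k l' + 1) (w : Key → ℕ) :
    Rep (PF m k t l' l o h F0) (cU' hP w) (Jn m k (sL m k l) l')
      (Bw m k l' (t + h - 1) w) (ZwO m k l' (t - 1) o w) :=
  rep_gen' (P := PF m k t l' l o h F0) hm hS ht hh (fun _ _ => rfl)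
    (fun r _ y => cU'_PF hm hS ht hP w r y) (PF_L h) hth

/-- the keys of the levels are not deep -/
theorem PF_keys (hm : 0 < m) (hl : bb 0 ≤ mL m k l) (hl' : bb 0 ≤ mL m k l')
    (hS : SplitP m k (sL m k l') l' l) (ht : 1 ≤ t) (hth : t + h ≤ rL m k l)
    (hth' : t + h ≤ rL m k l' + 1) (ho : o ∈ OK m k l' (t - 1)) {K : Finset Key}
    (hK : keysOf m k l ⊆ K) (hK' : keysOf m k l' ⊆ K) :
    ∀ r < (PF m k t l' l o h F0).h, ∀ i, ∀ y ∈ (PF m k t l' l o h F0).Y r,
      (PF m k t l' l o h F0).key r i y ∈ K \ deep m k l l' (t + h) ∧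
      (PF m k t l' l o h F0).key' r i y ∈ K \ deep m k l l' (t + h) := by
  intro r hr i y hy
  have hr' : r < h := hr
  have hlt : ∀ (c : Prop) [Decidable c] (j : JF), (if c then o else 0) j < Bd m k l' := by
    intro c _ j
    split_ifs
    · exact OK_lt hm hl' ho j
    · exact Pool.Agent.Helper54.T5b.Bd_pos m k l'
  have hy' : y ∈ Ys m k l' (t - 1 + r) := by
    have h2 : y ∈ TT (pz k (sL m k l - (t + r))) (zf m k (sL m k l - (t + r))) := hy
    rw [idx_S hS ht] at h2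
    exact h2
  refine ⟨mem_sdiff.2 ⟨hK (skey_mem hm hl (t := t + r) (by omega) hy i), ?_⟩,
    mem_sdiff.2 ⟨hK' (Pool.Agent.Helper54.T5b.Skey_mem hm hl' (t := t - 1 + r) (by omega)
      (hlt _) hy' i), ?_⟩⟩
  · unfold deep
    rw [mem_union, not_or]
    refine ⟨skey_not_mem_keysD (l := l) (t := t + r) (by omega) l 0 i y, ?_⟩
    rw [mem_keysD]
    rintro ⟨h2, -⟩
    have h3 : Key.S l (t + r) i 0 (mask (univ.filter (fun g => g < i)) y) ∈ keysOf m k l' := h2
    exact key_state_ne (split_ne hS).symm h3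
  · unfold deep
    rw [mem_union, not_or]
    refine ⟨?_, skey_not_mem_keysD (l := l') (t := t - 1 + r) (by omega) l' _ i y⟩
    rw [mem_keysD]
    rintro ⟨h2, -⟩
    have h3 : Key.S l' (t - 1 + r) i (if t - 1 + r = 0 then o else 0)
      (mask (univ.filter (fun g => g < i)) y) ∈ keysOf m k l := h2
    exact key_state_ne (split_ne hS) h3

end Pool.Agent.Helper39.T5b
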