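import Pool.Agent.Helper39.T5b.InRepS
import Pool.Agent.Helper39.T5b.SlInst
import Pool.Agent.Helper39.SL.UnionF

/-!
# T5b (MP_12a1af), NEARs block, line S4: the static block for a pair of states across SPLIT
-/

set_option autoImplicit false

namespace Pool.Agent.Helper39.T5b

open Finset
open Pool.Agent.Helper5.ET hiding Key Mk AA Rp keysOf el ext
open Pool.Agent.Helper27.T4
open Pool.Agent.Helper27.T5b hiding FF_pos dvd_cs cs_lt QQ_eq_NN c0_lt Jn_pos
open Pool.Agent.Helper37.T5b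
open Pool.Agent.Helper30.T5b hiding pz_prime pz_inj
open Pool.Agent.Helper22.HW Pool.Agent.Helper22.SL Pool.Agent.Helper57.T5
open Pool.Agent.Helper39.T5 Pool.Agent.Helper50.T5 Pool.Agent.Helper42.T5.Pr
open Pool.Agent.Helper84.T5b Pool.Agent.Helper44.T5 Pool.Agent.Helper44.T5b Pool.Agent.Helper39.SL
open Pool.Agent.Helper22.NEARs
open Pool.Agent.Helper22.NEARb (wW)
open Pool.Agent.Helper45.T5b (OK)
open Pool.Agent.Helper48.T5b (SplitP)

variable {m k l l' t : ℕ} {o : JF → ℕ}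

/-! ## classes of labels -/

theorem clx_eq (m k t l' l : ℕ) (c : Cx) (i : ℕ) :
    clx m k t l' l c i = Pool.Agent.Helper22.NEARb.clx m k t l' l c.2 i := rfl

/-- the exponents of the fronts of the lower state -/
theorem eJ_le' (hm : 0 < m) (hcom : ez m (sL m k l - t) l' = ez m (sL m k l - t) l) (r : ℕ)
    (i : JF) : eJ m k l l' t r i ≤ dJ m k l l' t i := by
  have h1 : ez m (sL m k l - (t + r)) l' ≤ ez m (sL m k l - t) l' := ez_le hm (by omega) l'
  rw [hcom] at h1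
  have h2 := aJ_mono m k (sL m k l) i h1
  show aJ m k (sL m k l) (ez m (sL m k l - (t + r)) l') i - aJ m k (sL m k l) l' i ≤
    aJ m k (sL m k l) (ez m (sL m k l - t) l) i - aJ m k (sL m k l) l' i
  omega

/-- the modulus of the classes of the front `t + r` -/
theorem F'_divS (hm : 0 < m) (r : ℕ) : (PN m k t l' l o).F' r / (PN m k t l' l o).M' =
    NN (pJ k (sL m k l)) (eJ m k l l' t r) := by
  have e1 : (PN m k t l' l o).F' r = Jn m k (sL m k l) (ez m (sL m k l - (t + r)) l') := rfl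
  have e2 : (PN m k t l' l o).M' = Jn m k (sL m k l) l' := rfl
  rw [e1, e2]
  have hle : l' ≤ ez m (sL m k l - (t + r)) l' := (lt_ez hm _ l').le
  have e3 : Jn m k (sL m k l) (ez m (sL m k l - (t + r)) l') =
      Jn m k (sL m k l) l' * NN (pJ k (sL m k l)) (eJ m k l l' t r) := by
    unfold Jn
    rw [← NN_add]
    congr 1
    funext i
    have := aJ_mono m k (sL m k l) i hle
    unfold eJ
    omega
  rw [e3, Nat.mul_div_cancel_left _ (Jn_pos _ _ _ _)]

/-- hypothesis `hF0` of the static block -/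
theorem F0_S (h : PDs m k t l' l) (hm : 0 < m) :
    (PN m k t l' l o).F 0 = (PN m k t l' l o).M' * DJ m k l l' t := by
  have e1 : (PN m k t l' l o).F 0 = Jn m k (sL m k l) (ef m k l t) := rfl
  have e2 : (PN m k t l' l o).M' = Jn m k (sL m k l) l' := rfl
  rw [e1, e2]
  unfold Jn DJ
  rw [← NN_add]
  congr 1
  funext i
  have := aJ_mono m k (sL m k l) i (h.le.trans (le_front hm k t l))
  unfold dJ
  omega

/-- hypothesis `hIr` of the static block -/
theorem hIr_S (hm : 0 < m) (hcom : ez m (sL m k l - t) l' = ez m (sL m k l - t) l)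
    (ht : t ≤ sL m k l + 1) (hk : t ≤ k + 2) {c : Cx}
    (hc : c.2.1 ∈ Theta (pJ k (sL m k l)) (dJ m k l l' t)) (r x : ℕ) :
    (((range (IJ m k l l')).image (fun i => clx m k t l' l c i % DJ m k l l' t)).filter
      (fun y => y % ((PN m k t l' l o).F' r / (PN m k t l' l o).M') =
        x % ((PN m k t l' l o).F' r / (PN m k t l' l o).M'))).card ≤ IrJ m k l l' t r := by
  rw [F'_divS hm r]
  set E := NN (pJ k (sL m k l)) (eJ m k l l' t r) with hE
  have hEpos : 0 < E := by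
    rw [hE]
    unfold NN
    exact Finset.prod_pos (fun i _ => pow_pos (pJ_prime k _ i).pos _)
  have hED : E ∣ DJ m k l l' t := NN_dvd (pJ k (sL m k l)) (fun i => eJ_le' hm hcom r i)
  rw [Finset.filter_image]
  refine card_image_le.trans ?_
  refine le_trans (card_le_card ?_) (card_cln_class (pJ_prime k (sL m k l)) (pJ_ne_two k _)
    (pJ_inj k (sL m k l)) (aJ m k (sL m k l) l') (dJ m k l l' t) (eJ m k l l' t r)
    (uJ m k l l') (fun i => eJ_le' hm hcom r i) hc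
    (LL (QQ m k (sL m k l)) t * x + c.2.2.1 * (E - 1)))
  intro i hi
  rw [mem_filter] at hi ⊢
  refine ⟨hi.1, ?_⟩
  have h1 : Pool.Agent.Helper22.NEARb.clx m k t l' l c.2 i ≡ x [MOD E] := by
    have h2 := hi.2
    rw [Nat.mod_mod_of_dvd _ hED] at h2
    exact h2
  have h2 := clx_modEq ht hk hED c.2 h1
  refine Nat.ModEq.add_right_cancel' c.2.2.1 (h2.trans ?_)
  have h3 : LL (QQ m k (sL m k l)) t * x + c.2.2.1 * (E - 1) + c.2.2.1 =
      LL (QQ m k (sL m k l)) t * x + c.2.2.1 * E := by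
    obtain ⟨E', hE'⟩ : ∃ E', E = E' + 1 := ⟨E - 1, by omega⟩
    rw [hE', Nat.add_sub_cancel]
    ring
  rw [h3]
  have h4 : LL (QQ m k (sL m k l)) t * x + 0 ≡
      LL (QQ m k (sL m k l)) t * x + c.2.2.1 * E [MOD E] :=
    Nat.ModEq.add_left _ ((Nat.modEq_zero_iff_dvd.2 (dvd_mul_left _ _)).symm)
  rwa [add_zero] at h4

/-! ## the leaf -/

/-- the leaf of the windows in the form of `sl_union` -/
theorem leaf_BwS_of_Zw {s R0 : ℕ} (hm : 0 < m) (hS : SplitP m k (sL m k l') l' l) (hs1 : 1 ≤ s)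
    (hs : s ≤ rL m k l) (hs' : s ≤ rL m k l' + 1) (w : Key → ℕ)
    (h : ∀ n, ((Zw m k l s w ×ˢ Zw m k l' (s - 1) w).filter
      (fun q => q.1 + q.2 = n)).card ≤ R0)
    (n : ℕ) : ((Bw m k l s w ×ˢ Bw m k l' (s - 1) w).filter
      (fun q => Jn m k (sL m k l) l * LL (QQ m k (sL m k l)) s * q.1 +
        Jn m k (sL m k l) l' * LL (QQ m k (sL m k l)) s * q.2 = n)).card ≤ R0 := by
  have hpos : 0 < Jn m k (sL m k l) l * LL (QQ m k (sL m k l)) s :=
    Nat.mul_pos (Jn_pos _ _ _ _) (LL_QQ_pos _ _ _ _)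
  have hpos' : 0 < Jn m k (sL m k l) l' * LL (QQ m k (sL m k l)) s :=
    Nat.mul_pos (Jn_pos _ _ _ _) (LL_QQ_pos _ _ _ _)
  have hmem : ∀ x i, i ≤ rL m k x → ∀ b ∈ Bw m k x i w,
      Jn m k (sL m k x) x * LL (QQ m k (sL m k x)) i * b ∈ Zw m k x i w := by
    intro x i hx b hb1
    have hb2 : b ∈ (Zw m k x i w).image
      (fun u => u / (Jn m k (sL m k x) x * LL (QQ m k (sL m k x)) i)) := hb1
    rw [mem_image] at hb2
    obtain ⟨u, hu, rfl⟩ := hb2
    rw [Nat.mul_div_cancel' (dvd_Zw hm hx hu)]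
    exact hu
  refine le_trans (card_le_card_of_injOn
    (fun q : ℕ × ℕ => (Jn m k (sL m k l) l * LL (QQ m k (sL m k l)) s * q.1,
      Jn m k (sL m k l) l' * LL (QQ m k (sL m k l)) s * q.2)) ?_ ?_) (h n)
  · intro q hq
    simp only [coe_filter, mem_product, Set.mem_ofPred_eq] at hq ⊢
    have h2 := hmem l' (s - 1) (by omega) _ hq.1.2
    rw [unit_win hm hS hs1] at h2
    exact ⟨⟨hmem l s hs _ hq.1.1, h2⟩, hq.2⟩
  · intro q _ q' _ hqq
    simp only [Prod.mk.injEq] at hqq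
    exact Prod.ext (Nat.eq_of_mul_eq_mul_left hpos hqq.1) (Nat.eq_of_mul_eq_mul_left hpos' hqq.2)

/-! ## the block -/

/-- the numbers of a pair of states across SPLIT, in the form of the static block -/
structure NumBS (m k t l' l : ℕ) (Γ : ℝ) : Prop where
  ok : ∀ o : JF → ℕ, (PN m k t l' l o).Ok (Mk m k)
  hA : ∀ (o : JF → ℕ) (δ : ℝ), δ ≤ wW m k l (sb m k t l' l) → ∀ r < hb m k t l' l,
    80 * (IJ m k l l' : ℝ) * (PN m k t l' l o).A r * (PN m k t l' l o).p r 0 *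
      (PN m k t l' l o).p r 2 * Real.sqrt ((PN m k t l' l o).q r 1) ≤
        Real.exp (-δ) * (PN m k t l' l o).q r 1
  hB : ∀ (o : JF → ℕ) (δ : ℝ), δ ≤ wW m k l (sb m k t l' l) → ∀ r < hb m k t l' l, 1 ≤ r →
    (IrJ m k l l' t r : ℝ) * (PN m k t l' l o).A r * (PN m k t l' l o).pc r ≤ Real.exp (-δ)
  hG : ∀ (o : JF → ℕ), ∀ r < hb m k t l' l,
    (((PN m k t l' l o).q r 0 * (PN m k t l' l o).q r 1 : ℕ) : ℝ) *
      ((PN m k t l' l o).W r * (PN m k t l' l o).q r 1) ≤ Γ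
  hG' : ∀ (o : JF → ℕ), (PN m k t l' l o).W (hb m k t l' l) ≤ Γ

/-- **the static block across SPLIT, all contexts**, from the numbers of the pair -/
theorem sl_instS_of (hm : 0 < m) (h : PDs m k t l' l) (hS : SplitP m k (sL m k l') l' l)
    (hbb : bb 0 ≤ mL m k l') {Γ : ℝ} (hN : NumBS m k t l' l Γ)
    {K : Finset Key} (hK : keysOf m k l ⊆ K) (hK' : keysOf m k l' ⊆ K) {R0 n : ℕ} (hn : 1 ≤ n)
    {δ ε : ℝ} (hδ : δ ≤ wW m k l (sb m k t l' l)) {A : (Key → ℕ) → Prop}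
    (hA : Pool.Agent.Helper22.SL.PrG (Mk m k) (deep m k l l' (sb m k t l' l)) A ε)
    (hgood : ∀ w : Key → ℕ, (∀ q, w q < Mk m k q) → ¬ A w →
      (∀ c ∈ Jx m k t l' l, PPx m k t l' l w c ≤ Real.exp (-δ)) ∧
      ∀ n, ((Zw m k l (sb m k t l' l) w ×ˢ Zw m k l' (sb m k t l' l - 1) w).filter
        (fun q => q.1 + q.2 = n)).card ≤ R0) :
    Pool.Agent.Helper22.SL.PrG (Mk m k) K (fun w => ∃ c ∈ Jx m k t l' l,
      (n + 1) ^ 2 ^ (4 * hb m k t l' l) *
        (Pool.Agent.Helper39.SL.Cd (PN m k t l' l c.1) * R0) < cNx m k t l' l w c)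
      (ε + (Jx m k t l' l).card * ((3 * (hb m k t l' l : ℝ) + 1) *
        Γ * Real.exp (-δ) ^ (n + 1))) := by
  have hrL := rL_le hm k l
  have ht := h.tr
  have ht1 := h.t1
  have hth : t + hb m k t l' l ≤ rL m k l := Pool.Agent.Helper22.NEARb.hb_le (l' := l') ht
  have hth' : t + hb m k t l' l ≤ rL m k l' + 1 := by
    rw [h.rL_eq]
    exact hth
  have hts : t ≤ sL m k l + 1 := by omega
  have htk : t ≤ k + 2 := by omega
  have hbl : bb 0 ≤ mL m k l := hbb.trans (Pool.Agent.Helper27.T5b.l1_mono _ h.le)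
  have hsb1 : 1 ≤ sb m k t l' l := by
    unfold sb
    omega
  have hOK : ∀ c ∈ Jx m k t l' l, c.1 ∈ OK m k l' (t - 1) := by
    intro c hc
    unfold Jx at hc
    exact (mem_product.1 hc).1
  have hθ : ∀ c ∈ Jx m k t l' l, c.2.1 ∈ Theta (pJ k (sL m k l)) (dJ m k l l' t) := by
    intro c hc
    unfold Jx at hc
    exact (mem_product.1 (mem_product.1 hc).2).1
  have hΓ0 : 0 ≤ Γ := by
    refine le_trans ?_ (hN.hG' 0)
    unfold Pr.W
    exact Finset.prod_nonneg (fun _ _ => by positivity)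
  have h1 := Pool.Agent.Helper39.SL.sl_union_fam (Mk := Mk m k) (Jx m k t l' l)
    (fun c => PN m k t l' l c.1) (h0 := hb m k t l' l)
    (fun c _ => hN.ok c.1) (fun _ => rfl) (Mk_pos m k)
    (K0 := deep m k l l' (sb m k t l' l)) (K := K) (deepS_sub hK hK')
    (fun c hc => PNs_keys hm hbl hbb hS ht1 hth hth' (hOK c hc) hK hK')
    (fun w => Bw m k l (sb m k t l' l) w) (fun w => Bw m k l' (sb m k t l' l - 1) w)
    (fun _ w => Zw m k l t w) (fun c w => ZwO m k l' (t - 1) c.1 w)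
    (fun w w' hw => BwS_congr_deep hm hbl hbb hw)
    (fun c _ w => rep_PNs (hN.ok c.1) hm hth w)
    (fun c _ w => rep_PNs' hS ht1 (hN.ok c.1) hm hth' w)
    (fun c => c.2.2.2.1) (fun c => bm m k t l' l * c.2.2.2.2) (clx m k t l' l)
    (I := IJ m k l l') (D := DJ m k l l' t) (C1 := 1) (R0 := R0)
    (Ir := fun _ => IrJ m k l l' t) (ρ := Real.exp (-δ)) (Γ := Γ) (δ := ε)
    (DJ_pos _ _ _ _ _) (fun c _ => F0_S h hm) (fun c _ => dvd_mul_right _ _)
    (fun c hc x => hC1_b (c := c.2) hm hts htk (hθ c hc) x)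
    (fun c hc r _ x => hIr_S hm h.com hts htk (hθ c hc) r x)
    (Real.exp_pos _).le hΓ0 (fun c _ => hN.hA c.1 δ hδ) (fun c _ => hN.hB c.1 δ hδ)
    (fun c _ => hN.hG c.1) (fun c _ => hN.hG' c.1) (A := A) hA
    (fun w hw hnA c hc => ⟨(hgood w hw hnA).1 c hc, fun x => ?_⟩) (m := n) hn
  · simp only [one_mul] at h1
    exact h1
  · have h3 := leaf_BwS_of_Zw (s := sb m k t l' l) hm hS hsb1 hth hth' w (hgood w hw hnA).2 x
    have e1 : (PN m k t l' l c.1).L (PN m k t l' l c.1).h =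
        LL (QQ m k (sL m k l)) (sb m k t l' l) := PNs_L (hb m k t l' l)
    rw [e1]
    exact h3

end Pool.Agent.Helper39.T5b
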