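import Pool.Agent.Helper22.NEARs.Defs
import Pool.Agent.Helper22.NEARb.Dep
import Pool.Agent.Helper48.T5b.EvSplit
import Pool.Agent.Helper37.T5b.OneEvent
import Pool.Agent.Helper39.T5b.InRep

/-!
# T5b (MP_12a1af), block NEARs: the inner windows over the static block, across SPLIT

The windows of the upper state `l` below its front `t` and of the lower state `l'` below its front
`t - 1` are towers of the same `h` levels over the windows of the levels `t + h`, `t - 1 + h`.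
-/

set_option autoImplicit false

namespace Pool.Agent.Helper39.T5b

open Finset
open Pool.Agent.Helper5.ET hiding Key Mk AA Rp keysOf el ext
open Pool.Agent.Helper27.T4
open Pool.Agent.Helper27.T5b hiding FF_pos dvd_cs cs_lt QQ_eq_NN c0_lt Jn_pos
open Pool.Agent.Helper37.T5b
open Pool.Agent.Helper30.T5b hiding pz_prime pz_inj
open Pool.Agent.Helper22.HW Pool.Agent.Helper22.SL Pool.Agent.Helper57.T5
open Pool.Agent.Helper39.T5 Pool.Agent.Helper50.T5 Pool.Agent.Helper42.T5.Pr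
open Pool.Agent.Helper84.T5b Pool.Agent.Helper44.T5 Pool.Agent.Helper44.T5b Pool.Agent.Helper39.SL
open Pool.Agent.Helper22.NEARs
open Pool.Agent.Helper45.T5b (OK)
open Pool.Agent.Helper48.T5b (SplitP SplitP_of LL_QQ_succ)

variable {m k l l' t : ℕ}

/-! ## the split -/

/-- near states across SPLIT -/
theorem splitEv_of (hm : 0 < m) {l' l : ℕ} (hll : l' ≤ l) (h0 : bb 0 ≤ mL m k l')
    (hk : kt m k ≤ era (mL m k l')) (hN : Near m k l' l) (hS : Split m k l' l) :
    SplitEv m k (mL m k l') (mL m k l) := by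
  have h1 : sv m k (mL m k l') + 1 = sv m k (mL m k l) := hS.1
  rcases event_of_near hm hll h0 hk hN with a | a | a | a | a | a | a
  · have := a.sv_eq
    omega
  · have e1 := a.sv'
    have e2 := a.sv
    omega
  · have e1 := a.sv'
    have e2 := a.sv
    omega
  · have e1 := a.sv'
    have e2 := a.sv
    omega
  · have e1 := a.sv'
    have e2 := a.sv
    omega
  · exact a
  · have e1 := a.sv'
    have e2 := a.sv
    omega

/-- late states -/
theorem exists_splitP (hm : 0 < m) (k : ℕ) : ∃ K0 : ℕ, ∀ t l' l, K0 ≤ l' → PDs m k t l' l →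
    SplitP m k (sL m k l') l' l ∧ bb 0 ≤ mL m k l' := by
  obtain ⟨l0, h0⟩ := Pool.Agent.Helper30.T5b.exists_late (k := k) hm 0 0
  refine ⟨l0, fun t l' l hl' h => ?_⟩
  obtain ⟨_, a2, a3, _, _⟩ := h0 l' hl'
  have h1 := SplitP_of hm h.le (splitEv_of hm h.le a2 a3 h.near h.split)
  have h2 := h1.s'
  rw [← h2] at h1
  exact ⟨h1, a2⟩

/-! ## codes -/

variable {o : JF → ℕ}

theorem PNs_Q (r : ℕ) : (PN m k t l' l o).Q r = QQ m k (sL m k l) (t + r) := rfl

theorem PNs_L (r : ℕ) : (PN m k t l' l o).L r = LL (QQ m k (sL m k l)) (t + r) := by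
  induction r with
  | zero =>
    unfold Pr.L
    rw [Finset.range_zero, Finset.prod_empty, mul_one]
    rfl
  | succ r ih =>
    rw [Pr.L_succ, ih, PNs_Q, ← LL_succ]
    rfl

theorem PNs_S (r : ℕ) : (PN m k t l' l o).S r = Ss m k l (t + r) 0 := by
  unfold Pr.S Ss
  rw [PNs_L]
  rfl

/-- the codes of the levels are the static codes of the upper state -/
theorem cU_PNs (hP : (PN m k t l' l o).Ok (Mk m k)) (w : Key → ℕ) (r : ℕ) (y : Fin 3 → ℕ) :
    cU hP w r y = cs m k l (t + r) w 0 y := by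
  have h1 : ∀ S : Side (pz k (sL m k l - (t + r))) Key, (PN m k t l' l o).S r = S →
      cU hP w r y = S.cd (pz_prime k _) (pz_inj k _) w y := by
    rintro S rfl
    rfl
  exact h1 _ (PNs_S r)

/-- a static code, all data as parameters -/
noncomputable def csJ (k j F : ℕ) (z : Fin 3 → ℕ) (key : Fin 3 → (Fin 3 → ℕ) → Key)
    (w : Key → ℕ) (y : Fin 3 → ℕ) : ℕ :=
  (⟨F, z, z, key⟩ : Side (pz k j) Key).cd (pz_prime k j) (pz_inj k j) w y

theorem cs_eq_csJ (m k l t : ℕ) (w : Key → ℕ) (o : JF → ℕ) (y : Fin 3 → ℕ) :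
    cs m k l t w o y = csJ k (sL m k l - t) (FF m k l (t + 1) * LL (QQ m k (sL m k l)) t)
      (zf m k (sL m k l - t)) (Ss m k l t o).key w y := rfl

/-- the index of a level -/
theorem idx_S (h : SplitP m k (sL m k l') l' l) (ht : 1 ≤ t) (r : ℕ) :
    sL m k l - (t + r) = sL m k l' - (t - 1 + r) := by
  have h1 := h.s1
  omega

/-- the modulus of a level of the lower state -/
theorem unit_S (hm : 0 < m) (h : SplitP m k (sL m k l') l' l) (ht : 1 ≤ t) (r : ℕ) :
    (PN m k t l' l o).F' (r + 1) * (PN m k t l' l o).L r =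
      FF m k l' (t - 1 + r + 1) * LL (QQ m k (sL m k l')) (t - 1 + r) := by
  obtain ⟨t0, rfl⟩ : ∃ t0, t = t0 + 1 := ⟨t - 1, by omega⟩
  have h1 := h.FF_LL_lower hm (t0 + r)
  have e1 : t0 + 1 - 1 + r = t0 + r := by omega
  rw [PNs_L, e1, h1, h.s1]
  have e2 : (PN m k (t0 + 1) l' l o).F' (r + 1) = SplitP.Gf m k (sL m k l') l' (t0 + r + 2) := by
    show Jn m k (sL m k l) (ez m (sL m k l - (t0 + 1 + (r + 1))) l') =
      Jn m k (sL m k l' + 1) (ez m (sL m k l' + 1 - (t0 + r + 2)) l')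
    rw [h.s1, show t0 + 1 + (r + 1) = t0 + r + 2 by omega]
  rw [e2, show t0 + 1 + r = t0 + r + 1 by omega]

/-- the codes of the levels of the lower state -/
theorem cU'_PNs (hm : 0 < m) (h : SplitP m k (sL m k l') l' l) (ht : 1 ≤ t)
    (hP : (PN m k t l' l o).Ok (Mk m k)) (w : Key → ℕ) (r : ℕ) (y : Fin 3 → ℕ) :
    cU' hP w r y = cs m k l' (t - 1 + r) w (if t - 1 + r = 0 then o else 0) y := by
  have h1 : cU' hP w r y = csJ k (sL m k l - (t + r))
      ((PN m k t l' l o).F' (r + 1) * (PN m k t l' l o).L r) (zf m k (sL m k l - (t + r)))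
      (Ss m k l' (t - 1 + r) (if t - 1 + r = 0 then o else 0)).key w y := rfl
  rw [h1, unit_S hm h ht, idx_S h ht, cs_eq_csJ]

/-! ## the windows with an outer key -/

theorem mem_ZwO {s : ℕ} {w : Key → ℕ} {u : ℕ} : u ∈ ZwO m k l s o w ↔
    ∃ y : ℕ → Fin 3 → ℕ, (∀ t, s ≤ t → t < rL m k l → y t ∈ Ys m k l t) ∧ ∃ v ∈ Vw m k l w,
      u = ∑ t ∈ Ico s (rL m k l), cs m k l t w (if t = 0 then o else 0) (y t) +
        Un m k l * v := by
  unfold ZwO
  simp only [mem_image, mem_product, Fintype.mem_piFinset, Prod.exists]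
  set r := rL m k l with hr
  have key : ∀ g : ℕ → ℕ, ∑ t ∈ Ico s r, g t = ∑ t : Fin (r - s), g (s + t) := by
    intro g
    rw [Finset.sum_Ico_eq_sum_range, ← Fin.sum_univ_eq_sum_range (fun i => g (s + i))]
  constructor
  · rintro ⟨y, v, ⟨hy, hv⟩, rfl⟩
    refine ⟨fun t => if h : t - s < r - s then y ⟨t - s, h⟩ else 0, ?_, v, hv, ?_⟩
    · intro t h1 h2
      have h3 : t - s < r - s := by omega
      have h4 := hy ⟨t - s, h3⟩
      simp only [show s + (t - s) = t by omega] at h4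
      simp only [dif_pos h3]
      exact h4
    · congr 1
      rw [key]
      refine Finset.sum_congr rfl (fun t _ => ?_)
      have h3 : s + (t : ℕ) - s < r - s := by have := t.2; omega
      have h4 : (⟨s + (t : ℕ) - s, h3⟩ : Fin (r - s)) = t := Fin.ext (by simp)
      simp only [dif_pos h3, h4]
  · rintro ⟨y, hy, v, hv, rfl⟩
    refine ⟨fun t => y (s + t), v, ⟨fun t => hy _ (by omega) (by have := t.2; omega), hv⟩, ?_⟩
    rw [key]

/-- the levels `s, ..., s + h - 1`, `h ≥ 1` -/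
theorem ZwO_split {s : ℕ} {w : Key → ℕ} (h : ℕ) (h1 : 1 ≤ h) (hs : s + h ≤ rL m k l) {u : ℕ}
    (hu : u ∈ ZwO m k l s o w) : ∃ y : ℕ → Fin 3 → ℕ,
      (∀ r < h, y r ∈ Ys m k l (s + r)) ∧ ∃ u' ∈ Zw m k l (s + h) w,
        u = ∑ r ∈ range h, cs m k l (s + r) w (if s + r = 0 then o else 0) (y r) + u' := by
  obtain ⟨y, hy, v, hv, rfl⟩ := mem_ZwO.1 hu
  refine ⟨fun r => y (s + r), fun r hr => hy _ (by omega) (by omega), _,
    mem_Zw.2 ⟨y, fun t h1 h2 => hy t (by omega) h2, v, hv, rfl⟩, ?_⟩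
  have e1 : ∑ t ∈ Ico (s + h) (rL m k l), cs m k l t w (if t = 0 then o else 0) (y t) =
      ∑ t ∈ Ico (s + h) (rL m k l), cs m k l t w 0 (y t) := by
    refine Finset.sum_congr rfl (fun t ht => ?_)
    rw [mem_Ico] at ht
    rw [if_neg (by omega)]
  rw [← add_assoc, ← Finset.sum_Ico_consecutive _ (show s ≤ s + h by omega) hs,
    Finset.sum_Ico_eq_sum_range _ s (s + h), Nat.add_sub_cancel_left, e1]

/-! ## the windows as towers -/

/-- **upper state** -/
theorem rep_PNs (hP : (PN m k t l' l o).Ok (Mk m k)) (hm : 0 < m)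
    (hth : t + hb m k t l' l ≤ rL m k l) (w : Key → ℕ) :
    Rep (PN m k t l' l o) (cU hP w) (Jn m k (sL m k l) l) (Bw m k l (sb m k t l' l) w)
      (Zw m k l t w) := by
  intro u hu
  obtain ⟨y, hy, u', hu', he⟩ := Zw_split (hb m k t l' l) hth hu
  obtain ⟨b, hb', hub⟩ := Zw_eq_Bw hm hth hu'
  refine ⟨y, fun r hr => hy r hr, b, hb', ?_⟩
  rw [he, hub]
  congr 1
  · exact Finset.sum_congr rfl (fun r _ => (cU_PNs hP w r (y r)).symm)
  · have h1 : (PN m k t l' l o).L (PN m k t l' l o).h =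
        LL (QQ m k (sL m k l)) (t + hb m k t l' l) := PNs_L _
    rw [h1]

/-- the unit of the windows of the lower state -/
theorem unit_win (hm : 0 < m) (h : SplitP m k (sL m k l') l' l) {i : ℕ} (hi : 1 ≤ i) :
    Jn m k (sL m k l') l' * LL (QQ m k (sL m k l')) (i - 1) =
      Jn m k (sL m k l) l' * LL (QQ m k (sL m k l)) i := by
  obtain ⟨i0, rfl⟩ : ∃ i0, i = i0 + 1 := ⟨i - 1, by omega⟩
  have h1 := (h.win l' le_rfl (h.le.trans (Nat.le_add_right _ _))).Jn_split hm
  rw [Nat.add_sub_cancel, h1, h.s1, LL_QQ_succ]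
  ring

/-- **lower state** -/
theorem rep_PNs' (h : SplitP m k (sL m k l') l' l) (ht : 1 ≤ t)
    (hP : (PN m k t l' l o).Ok (Mk m k)) (hm : 0 < m)
    (hth : t + hb m k t l' l ≤ rL m k l' + 1) (w : Key → ℕ) :
    Rep (PN m k t l' l o) (cU' hP w) (Jn m k (sL m k l) l')
      (Bw m k l' (sb m k t l' l - 1) w) (ZwO m k l' (t - 1) o w) := by
  intro u hu
  have hb1 : 1 ≤ hb m k t l' l := Pool.Agent.Helper22.NEARb.hb_pos m k t l' l
  obtain ⟨y, hy, u', hu', he⟩ := ZwO_split (hb m k t l' l) hb1 (by omega) hu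
  have e1 : t - 1 + hb m k t l' l = sb m k t l' l - 1 := by
    unfold sb
    omega
  rw [e1] at hu'
  obtain ⟨b, hb', hub⟩ := Zw_eq_Bw hm (by unfold sb; omega) hu'
  refine ⟨y, fun r hr => ?_, b, hb', ?_⟩
  · have h2 := hy r hr
    show y r ∈ TT (pz k (sL m k l - (t + r))) (zf m k (sL m k l - (t + r)))
    rw [idx_S h ht]
    exact h2
  have h1 : (PN m k t l' l o).L (PN m k t l' l o).h =
      LL (QQ m k (sL m k l)) (sb m k t l' l) := PNs_L _
  have h2 : ∑ r ∈ range (hb m k t l' l),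
      cs m k l' (t - 1 + r) w (if t - 1 + r = 0 then o else 0) (y r) =
      ∑ r ∈ range (PN m k t l' l o).h, cU' hP w r (y r) :=
    Finset.sum_congr rfl (fun r _ => (cU'_PNs hm h ht hP w r (y r)).symm)
  rw [he, hub, unit_win hm h (show 1 ≤ sb m k t l' l by unfold sb; omega), h1, h2]

/-! ## keys -/

theorem deepS_sub {K : Finset Key} {s : ℕ} (hK : keysOf m k l ⊆ K) (hK' : keysOf m k l' ⊆ K) :
    Pool.Agent.Helper22.NEARs.deep m k l l' s ⊆ K :=
  union_subset ((keysD_sub _ _ _ _).trans hK) ((keysD_sub _ _ _ _).trans hK')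

theorem BwS_congr_deep (hm : 0 < m) (hl : bb 0 ≤ mL m k l) (hl' : bb 0 ≤ mL m k l')
    {w w' : Key → ℕ} {s : ℕ}
    (h : ∀ q ∈ Pool.Agent.Helper22.NEARs.deep m k l l' s, w q = w' q) :
    Bw m k l s w = Bw m k l s w' ∧ Bw m k l' (s - 1) w = Bw m k l' (s - 1) w' :=
  ⟨Bw_congr hm hl (fun q hq => h q (mem_union_left _ hq)),
    Bw_congr hm hl' (fun q hq => h q (mem_union_right _ hq))⟩

/-- a key of the state `a` is not a key of the state `b` -/
theorem key_state_ne {a b t : ℕ} (hab : a ≠ b) {f : Fin 3} {o : JF → ℕ} {y : Fin 3 → ℕ} :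
    Key.S a t f o y ∉ keysOf m k b := by
  unfold keysOf
  simp only [mem_union, mem_image, not_or]
  refine ⟨⟨?_, ?_⟩, ?_⟩
  · rintro ⟨q, _, h⟩
    exact absurd h (by simp)
  · rintro ⟨q, _, h⟩
    simp only [Key.S.injEq] at h
    exact hab h.1.symm
  · rintro ⟨q, _, h⟩
    exact absurd h (by simp)

theorem split_ne (h : SplitP m k (sL m k l') l' l) : l' ≠ l := by
  rintro rfl
  have h1 := h.s1
  omega

/-- the outer keys are small -/
theorem OK_lt (hm : 0 < m) (hl : bb 0 ≤ mL m k l) {i : ℕ} (ho : o ∈ OK m k l i) (j : JF) :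
    o j < Bd m k l := by
  classical
  unfold OK at ho
  rw [mem_image] at ho
  obtain ⟨x, hx, rfl⟩ := ho
  exact Pool.Agent.Helper54.T5b.okey_lt hm hl hx i j

/-- hypothesis `hK` of the static block -/
theorem PNs_keys (hm : 0 < m) (hl : bb 0 ≤ mL m k l) (hl' : bb 0 ≤ mL m k l')
    (h : SplitP m k (sL m k l') l' l) (ht : 1 ≤ t) (hth : t + hb m k t l' l ≤ rL m k l)
    (hth' : t + hb m k t l' l ≤ rL m k l' + 1) (ho : o ∈ OK m k l' (t - 1)) {K : Finset Key}
    (hK : keysOf m k l ⊆ K) (hK' : keysOf m k l' ⊆ K) :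
    ∀ r < (PN m k t l' l o).h, ∀ i, ∀ y ∈ (PN m k t l' l o).Y r,
      (PN m k t l' l o).key r i y ∈ K \ deep m k l l' (sb m k t l' l) ∧
      (PN m k t l' l o).key' r i y ∈ K \ deep m k l l' (sb m k t l' l) := by
  intro r hr i y hy
  have hr' : r < hb m k t l' l := hr
  have hlt : ∀ (c : Prop) [Decidable c] (j : JF), (if c then o else 0) j < Bd m k l' := by
    intro c _ j
    split_ifs
    · exact OK_lt hm hl' ho j
    · exact Pool.Agent.Helper54.T5b.Bd_pos m k l'
  have hy' : y ∈ Ys m k l' (t - 1 + r) := by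
    have h2 : y ∈ TT (pz k (sL m k l - (t + r))) (zf m k (sL m k l - (t + r))) := hy
    rw [idx_S h ht] at h2
    exact h2
  refine ⟨mem_sdiff.2 ⟨hK (skey_mem hm hl (t := t + r) (by omega) hy i), ?_⟩,
    mem_sdiff.2 ⟨hK' (Pool.Agent.Helper54.T5b.Skey_mem hm hl' (t := t - 1 + r) (by omega)
      (hlt _) hy' i), ?_⟩⟩
  · unfold deep
    rw [mem_union, not_or]
    refine ⟨skey_not_mem_keysD (l := l) (t := t + r) (by unfold sb; omega) l 0 i y, ?_⟩
    rw [mem_keysD]
    rintro ⟨h2, -⟩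
    have h3 : Key.S l (t + r) i 0 (mask (univ.filter (fun g => g < i)) y) ∈ keysOf m k l' := h2
    exact key_state_ne (split_ne h).symm h3
  · unfold deep
    rw [mem_union, not_or]
    refine ⟨?_, skey_not_mem_keysD (l := l') (t := t - 1 + r) (by unfold sb; omega) l' _ i y⟩
    rw [mem_keysD]
    rintro ⟨h2, -⟩
    have h3 : Key.S l' (t - 1 + r) i (if t - 1 + r = 0 then o else 0)
      (mask (univ.filter (fun g => g < i)) y) ∈ keysOf m k l := h2
    exact key_state_ne (split_ne h) h3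

end Pool.Agent.Helper39.T5b
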