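import Pool.Agent.Helper39.T5b.SlInst
import Pool.Agent.Helper63.T5b.ClsB
import Pool.Agent.Helper22.NEARb.Stmts

/-!
# T5b (MP_12a1af), NEARb block, line Nb4 (`SlInstS`)
-/

set_option autoImplicit false

namespace Pool.Agent.Helper39.T5b

open Finset
open Pool.Agent.Helper5.ET hiding Key Mk AA Rp keysOf el ext
open Pool.Agent.Helper27.T4
open Pool.Agent.Helper37.T5b
open Pool.Agent.Helper22.HW Pool.Agent.Helper22.SL Pool.Agent.Helper57.T5
open Pool.Agent.Helper84.T5b Pool.Agent.Helper44.T5 Pool.Agent.Helper44.T5b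
open Pool.Agent.Helper22.NEARb

variable {m k l l' t : ℕ}

theorem eJ_eq_eB {m k t l' l : ℕ} (h : PDb m k t l' l) (r : ℕ) :
    eJ m k l l' t r = Pool.Agent.Helper63.T5b.eB m k t l' l r := by
  funext i
  unfold eJ Pool.Agent.Helper63.T5b.eB ef
  rw [h.sL_eq]

theorem IrJ_eq_IrB {m k t l' l : ℕ} (h : PDb m k t l' l) (r : ℕ) :
    IrJ m k l l' t r = Pool.Agent.Helper63.T5b.IrB m k t l' l r := by
  unfold IrJ Pool.Agent.Helper63.T5b.IrB
  rw [eJ_eq_eB h]

/-- the numbers of a late pair -/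
theorem numB (hm : 0 < m) (h : PDb m k t l' l)
    (hL : Pool.Agent.Helper63.T5b.LateN m k (Pool.Agent.Helper63.T5b.cB k) l') :
    NumB m k t l' l (Real.exp (42 * wW m k l t)) where
  big := hL.bb.trans (Pool.Agent.Helper27.T5b.l1_mono _ h.le)
  big' := hL.bb
  ok := Pool.Agent.Helper63.T5b.PN_ok hm h hL
  hA := fun _ hδ => Pool.Agent.Helper63.T5b.PN_hA hm h hL hδ
  hB := fun δ hδ r hr hr1 => by
    rw [IrJ_eq_IrB h]
    exact Pool.Agent.Helper63.T5b.PN_hB hm h hL hδ r hr hr1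
  hG := Pool.Agent.Helper63.T5b.PN_hG hm h hL
  hG' := Pool.Agent.Helper63.T5b.PN_hG' hm h hL

/-- **Nb4**: the static block, all contexts -/
theorem sl_inst (m k : ℕ) (hm : 2 ≤ m) : SlInstS m k := by
  obtain ⟨K0, hK0⟩ := Pool.Agent.Helper63.T5b.exists_lateN hm k (Pool.Agent.Helper63.T5b.cB k)
  refine ⟨K0, ?_⟩
  intro t l' l hl' h K hK hK' R0 n hn δ ε hδ A hA hgood
  have hm0 : 0 < m := by omega
  exact sl_inst_of hm0 h (numB hm0 h (hK0 l' hl')) hK hK' hn hδ hA hgood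

end Pool.Agent.Helper39.T5b
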